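import Mathlib

set_option autoImplicit false
open Filter Topology Set
open scoped ENNReal NNReal

namespace Pool.Agent.Results.MP_0c7c8f_al.NoFinest

/-- The monoid of endomorphisms of the structure `(ℕ, <)` (Mathlib's `RelHom` with its
composition monoid structure). -/
abbrev E : Type := ((· < ·) : ℕ → ℕ → Prop) →r ((· < ·) : ℕ → ℕ → Prop)

lemma E.strictMono (f : E) : StrictMono f := fun _ _ h => f.map_rel h

lemma E.le (f : E) (n : ℕ) : n ≤ f n := f.strictMono.le_apply

/-- The excess `x n - n`. -/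
def exc (x : ℕ → ℕ) (n : ℕ) : ℕ := x n - n

lemma exc_mono (f : E) {m n : ℕ} (h : m ≤ n) : exc f m ≤ exc f n := by
  have key : ∀ k, exc f m ≤ exc f (m + k) := by
    intro k
    induction k with
    | zero => simp
    | succ k ih =>
      refine ih.trans ?_
      have h1 : f (m + k) < f (m + (k + 1)) := f.strictMono (by omega)
      have h2 := f.le (m + k)
      unfold exc
      omega
  obtain ⟨k, rfl⟩ := Nat.exists_eq_add_of_le h
  exact key k

lemma exc_mul (f g : E) (n : ℕ) : exc (f * g : E) n = exc f (g n) + exc g n := by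
  have h1 := f.le (g n)
  have h2 := g.le n
  simp only [exc, RelHom.mul_apply]
  omega

/-- The term of the weighted series. -/
noncomputable def term (l : ℕ → ℕ) (x : ℕ → ℕ) (k : ℕ) : ℝ≥0∞ :=
  ((l k * exc x (2 ^ k) : ℕ) : ℝ≥0∞) * ((2 : ℝ≥0∞) ^ k)⁻¹

/-- The weighted sum of dyadic excesses. -/
noncomputable def phi (l : ℕ → ℕ) (x : ℕ → ℕ) : ℝ≥0∞ := ∑' k, term l x k

/-- The topology attached to a weight. -/
@[instance_reducible] noncomputable def top (l : ℕ → ℕ) : TopologicalSpace E :=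
  TopologicalSpace.induced (fun f : E => ((f : ℕ → ℕ), phi l f)) inferInstance

lemma term_ne_top (l x : ℕ → ℕ) (k : ℕ) : term l x k ≠ ∞ := by
  unfold term
  exact ENNReal.mul_ne_top (ENNReal.natCast_ne_top _) (by simp)

lemma continuous_term (l : ℕ → ℕ) (k : ℕ) : Continuous (fun x : ℕ → ℕ => term l x k) := by
  have h1 : Continuous (fun x : ℕ → ℕ => x (2 ^ k)) := continuous_apply _
  have h2 : Continuous (fun n : ℕ => ((l k * (n - 2 ^ k) : ℕ) : ℝ≥0∞) * ((2 : ℝ≥0∞) ^ k)⁻¹) :=
    continuous_of_discreteTopology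
  exact h2.comp h1

/-- `G_δ` subsets of Polish spaces are Polish. -/
theorem isGδ_polishSpace {X : Type*} [TopologicalSpace X] [PolishSpace X] {s : Set X}
    (hs : IsGδ s) : PolishSpace s := by
  obtain ⟨u, hu, hsu⟩ := isGδ_iff_eq_iInter_nat.1 hs
  have hmem : ∀ (x : s) (n : ℕ), (x : X) ∈ u n := by
    intro x n
    have hx : (x : X) ∈ ⋂ n, u n := hsu ▸ x.2
    exact mem_iInter.1 hx n
  let d : s → ((n : ℕ) → u n) := fun x n => ⟨x, hmem x n⟩
  have hpol : ∀ n, PolishSpace (u n) := fun n => (hu n).polishSpace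
  have hd : Continuous d :=
    continuous_pi fun n => Continuous.subtype_mk continuous_subtype_val _
  have hg : Continuous (fun y : ((n : ℕ) → u n) => (y 0 : X)) :=
    continuous_subtype_val.comp (continuous_apply 0)
  have hemb : IsEmbedding d := by
    refine IsEmbedding.of_comp hd hg ?_
    exact IsEmbedding.subtypeVal
  have hcl : IsClosed (range d) := by
    have : range d = ⋂ n, {y : ((n : ℕ) → u n) | (y n : X) = (y 0 : X)} := by
      ext y
      simp only [mem_range, mem_iInter, mem_ofPred_eq]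
      constructor
      · rintro ⟨x, rfl⟩ n
        rfl
      · intro h
        have hy : (y 0 : X) ∈ s := by
          rw [hsu]
          refine mem_iInter.2 fun n => ?_
          rw [← h n]
          exact (y n).2
        refine ⟨⟨y 0, hy⟩, ?_⟩
        funext n
        exact Subtype.ext (h n).symm
    rw [this]
    refine isClosed_iInter fun n => ?_
    exact isClosed_eq (continuous_subtype_val.comp (continuous_apply n)) hg
  exact (IsClosedEmbedding.mk hemb hcl).polishSpace

lemma lt_phi_iff (l x : ℕ → ℕ) (c : ℝ≥0∞) :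
    c < phi l x ↔ ∃ n, c < ∑ k ∈ Finset.range n, term l x k := by
  unfold phi
  rw [ENNReal.tsum_eq_iSup_nat, lt_iSup_iff]

lemma phi_le_iff (l x : ℕ → ℕ) (c : ℝ≥0∞) :
    phi l x ≤ c ↔ ∀ n, ∑ k ∈ Finset.range n, term l x k ≤ c := by
  unfold phi
  rw [ENNReal.tsum_eq_iSup_nat, iSup_le_iff]

lemma continuous_partial_sum (l : ℕ → ℕ) (n : ℕ) :
    Continuous (fun x : ℕ → ℕ => ∑ k ∈ Finset.range n, term l x k) :=
  continuous_finsetSum _ fun k _ => continuous_term l k

lemma isGδ_range (l : ℕ → ℕ) :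
    IsGδ (range (fun f : E => ((f : ℕ → ℕ), phi l f))) := by
  have hrange : range (fun f : E => ((f : ℕ → ℕ), phi l f)) =
      ((⋂ n : ℕ, {p : (ℕ → ℕ) × ℝ≥0∞ | p.1 n < p.1 (n + 1)}) ∩
        (⋂ n : ℕ, {p : (ℕ → ℕ) × ℝ≥0∞ | ∑ k ∈ Finset.range n, term l p.1 k ≤ p.2})) ∩
      (⋂ q : ℚ, ({p : (ℕ → ℕ) × ℝ≥0∞ | p.2 ≤ ((Real.toNNReal q : ℝ≥0) : ℝ≥0∞)} ∪
        {p : (ℕ → ℕ) × ℝ≥0∞ | ((Real.toNNReal q : ℝ≥0) : ℝ≥0∞) < phi l p.1})) := by
    ext ⟨x, t⟩
    simp only [mem_range, Prod.mk.injEq, mem_inter_iff, mem_iInter, mem_ofPred_eq, mem_union]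
    constructor
    · rintro ⟨f, rfl, rfl⟩
      refine ⟨⟨fun n => f.strictMono (Nat.lt_succ_self n), (phi_le_iff l f _).1 le_rfl⟩, ?_⟩
      intro q
      exact le_or_gt _ _
    · rintro ⟨⟨h1, h2⟩, h3⟩
      have hx : StrictMono x := strictMono_nat_of_lt_succ h1
      refine ⟨⟨x, fun {a b} h => hx h⟩, rfl, ?_⟩
      refine le_antisymm ((phi_le_iff l x t).2 h2) ?_
      by_contra hlt
      push Not at hlt
      obtain ⟨q, -, hq1, hq2⟩ := ENNReal.lt_iff_exists_rat_btwn.1 hlt
      rcases h3 q with h | h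
      · exact absurd hq2 (not_lt.2 h)
      · exact absurd hq1 (not_lt.2 h.le)
  rw [hrange]
  refine IsGδ.inter (IsGδ.inter ?_ ?_) ?_
  · refine IsGδ.iInter fun n => IsOpen.isGδ ?_
    exact isOpen_lt ((continuous_apply n).comp continuous_fst)
      ((continuous_apply (n + 1)).comp continuous_fst)
  · refine IsGδ.iInter fun n => IsClosed.isGδ ?_
    exact isClosed_le ((continuous_partial_sum l n).comp continuous_fst) continuous_snd
  · refine IsGδ.iInter fun q => IsGδ.union (IsClosed.isGδ ?_) (IsOpen.isGδ ?_)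
    · exact isClosed_le continuous_snd continuous_const
    · have : {p : (ℕ → ℕ) × ℝ≥0∞ | ((Real.toNNReal q : ℝ≥0) : ℝ≥0∞) < phi l p.1} =
          ⋃ n, {p : (ℕ → ℕ) × ℝ≥0∞ |
            ((Real.toNNReal q : ℝ≥0) : ℝ≥0∞) < ∑ k ∈ Finset.range n, term l p.1 k} := by
        ext p
        simp only [mem_ofPred_eq, mem_iUnion]
        exact lt_phi_iff l p.1 _
      rw [this]
      refine isOpen_iUnion fun n => ?_
      exact isOpen_lt continuous_const ((continuous_partial_sum l n).comp continuous_fst)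

lemma polish_top (l : ℕ → ℕ) : @PolishSpace E (top l) := by
  have hinj : Function.Injective (fun f : E => ((f : ℕ → ℕ), phi l f)) := by
    intro f g h
    exact DFunLike.coe_injective (congrArg Prod.fst h)
  have hG := isGδ_polishSpace (isGδ_range l)
  have h := (Equiv.ofInjective _ hinj).polishSpace_induced
  have htop : top l = TopologicalSpace.induced (Equiv.ofInjective _ hinj)
      (instTopologicalSpaceSubtype : TopologicalSpace (range (fun f : E => ((f : ℕ → ℕ), phi l f)))) := by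
    unfold top instTopologicalSpaceSubtype
    rw [induced_compose]
    rfl
  rw [htop]
  exact h

lemma continuous_coe (l : ℕ → ℕ) : @Continuous E (ℕ → ℕ) (top l) _ (fun f : E => (f : ℕ → ℕ)) := by
  let _ := top l
  have h : Continuous (fun f : E => ((f : ℕ → ℕ), phi l f)) := continuous_induced_dom
  exact continuous_fst.comp h

lemma continuous_phi (l : ℕ → ℕ) : @Continuous E ℝ≥0∞ (top l) _ (fun f : E => phi l f) := by
  let _ := top l
  have h : Continuous (fun f : E => ((f : ℕ → ℕ), phi l f)) := continuous_induced_dom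
  exact continuous_snd.comp h

lemma eventually_apply_eq (l : ℕ → ℕ) (f₀ : E) (n : ℕ) :
    ∀ᶠ f in @nhds E (top l) f₀, f n = f₀ n := by
  let _ := top l
  have h : Continuous (fun f : E => f n) := (continuous_apply n).comp (continuous_coe l)
  have := h.tendsto f₀
  rw [nhds_discrete ℕ] at this
  exact this.eventually_mem (by simp : {f₀ n} ∈ (pure (f₀ n) : Filter ℕ))

/-- Tail of the weighted series. -/
noncomputable def tail (l : ℕ → ℕ) (x : ℕ → ℕ) (N : ℕ) : ℝ≥0∞ := ∑' k, term l x (k + N)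

lemma phi_eq (l x : ℕ → ℕ) (N : ℕ) :
    phi l x = ∑ k ∈ Finset.range N, term l x k + tail l x N := by
  unfold phi tail
  exact (ENNReal.summable.sum_add_tsum_nat_add' ).symm

lemma tail_mono (l x : ℕ → ℕ) (N s : ℕ) : tail l x (N + s) ≤ tail l x N := by
  unfold tail
  have : (fun k => term l x (k + (N + s))) = fun k => (fun j => term l x (j + N)) (k + s) := by
    funext k
    simp only
    congr 1
    omega
  rw [this]
  exact ENNReal.tsum_comp_le_tsum_of_injective (add_left_injective s) _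

lemma tail_le_phi (l x : ℕ → ℕ) (N : ℕ) : tail l x N ≤ phi l x := by
  rw [phi_eq l x N]
  exact le_add_self

lemma tendsto_tail (l x : ℕ → ℕ) (h : phi l x ≠ ∞) : Tendsto (tail l x) atTop (𝓝 0) :=
  ENNReal.tendsto_sum_nat_add _ h

lemma term_mul (l : ℕ → ℕ) (f g : E) (k : ℕ) :
    term l (f * g : E) k =
      ((l k * exc f (g (2 ^ k)) : ℕ) : ℝ≥0∞) * ((2 : ℝ≥0∞) ^ k)⁻¹ + term l g k := by
  unfold term
  rw [exc_mul, mul_add, Nat.cast_add, add_mul]

lemma term_shift (l : ℕ → ℕ) (hl : Monotone l) (f g : E) (s k : ℕ)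
    (hs : g (2 ^ k) ≤ 2 ^ (k + s)) :
    ((l k * exc f (g (2 ^ k)) : ℕ) : ℝ≥0∞) * ((2 : ℝ≥0∞) ^ k)⁻¹ ≤ 2 ^ s * term l f (k + s) := by
  unfold term
  have h1 : l k * exc f (g (2 ^ k)) ≤ l (k + s) * exc f (2 ^ (k + s)) :=
    Nat.mul_le_mul (hl (Nat.le_add_right k s)) (exc_mono f hs)
  have h2 : ((2 : ℝ≥0∞) ^ k)⁻¹ = 2 ^ s * ((2 : ℝ≥0∞) ^ (k + s))⁻¹ := by
    rw [pow_add, ENNReal.mul_inv (by left; simp) (by left; simp), mul_comm (((2 : ℝ≥0∞) ^ k)⁻¹),
      ← mul_assoc, ENNReal.mul_inv_cancel (by simp) (by simp), one_mul]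
  calc ((l k * exc f (g (2 ^ k)) : ℕ) : ℝ≥0∞) * ((2 : ℝ≥0∞) ^ k)⁻¹
      ≤ ((l (k + s) * exc f (2 ^ (k + s)) : ℕ) : ℝ≥0∞) * ((2 : ℝ≥0∞) ^ k)⁻¹ := by
        gcongr
    _ = _ := by
        rw [h2]
        ring

lemma exc_le_phi (l : ℕ → ℕ) (hl1 : ∀ k, 1 ≤ l k) (g : E) (k : ℕ) :
    (exc g (2 ^ k) : ℝ≥0∞) ≤ 2 ^ k * phi l g := by
  have h1 : term l g k ≤ phi l g := ENNReal.le_tsum k
  have h2 : (exc g (2 ^ k) : ℝ≥0∞) * ((2 : ℝ≥0∞) ^ k)⁻¹ ≤ term l g k := by
    unfold term
    have : exc g (2 ^ k) ≤ l k * exc g (2 ^ k) := Nat.le_mul_of_pos_left _ (hl1 k)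
    gcongr
  have h3 := h2.trans h1
  calc (exc g (2 ^ k) : ℝ≥0∞)
      = 2 ^ k * ((exc g (2 ^ k) : ℝ≥0∞) * ((2 : ℝ≥0∞) ^ k)⁻¹) := by
        rw [mul_comm (exc g (2 ^ k) : ℝ≥0∞), ← mul_assoc,
          ENNReal.mul_inv_cancel (by simp) (by simp), one_mul]
    _ ≤ _ := by gcongr

lemma apply_le_of_phi_le (l : ℕ → ℕ) (hl1 : ∀ k, 1 ≤ l k) (g : E) (s : ℕ)
    (hs : 1 + phi l g ≤ 2 ^ s) (k : ℕ) : g (2 ^ k) ≤ 2 ^ (k + s) := by
  have h1 : (g (2 ^ k) : ℝ≥0∞) = (2 : ℝ≥0∞) ^ k + exc g (2 ^ k) := by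
    have h := g.le (2 ^ k)
    have : g (2 ^ k) = 2 ^ k + exc g (2 ^ k) := by unfold exc; omega
    conv_lhs => rw [this]
    push_cast
    rfl
  have h2 : (g (2 ^ k) : ℝ≥0∞) ≤ (2 : ℝ≥0∞) ^ (k + s) := by
    rw [h1]
    calc (2 : ℝ≥0∞) ^ k + exc g (2 ^ k) ≤ 2 ^ k + 2 ^ k * phi l g := by
          gcongr
          exact exc_le_phi l hl1 g k
      _ = 2 ^ k * (1 + phi l g) := by ring
      _ ≤ 2 ^ k * 2 ^ s := by gcongr
      _ = _ := by rw [pow_add]
  have h3 : ((g (2 ^ k) : ℕ) : ℝ≥0∞) ≤ ((2 ^ (k + s) : ℕ) : ℝ≥0∞) := by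
    push_cast
    exact h2
  exact_mod_cast h3

lemma tail_mul_le (l : ℕ → ℕ) (hl : Monotone l) (hl1 : ∀ k, 1 ≤ l k) (f g : E) (s N : ℕ)
    (hs : 1 + phi l g ≤ 2 ^ s) :
    tail l (f * g : E) N ≤ 2 ^ s * tail l f N + tail l g N := by
  have h1 : ∀ k, term l (f * g : E) (k + N) ≤ 2 ^ s * term l f (k + (N + s)) + term l g (k + N) := by
    intro k
    rw [term_mul]
    have := term_shift l hl f g s (k + N) (apply_le_of_phi_le l hl1 g s hs (k + N))
    rw [add_assoc] at this
    exact add_le_add this le_rfl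
  calc tail l (f * g : E) N ≤ ∑' k, (2 ^ s * term l f (k + (N + s)) + term l g (k + N)) :=
        ENNReal.tsum_le_tsum h1
    _ = 2 ^ s * tail l f (N + s) + tail l g N := by
        rw [ENNReal.tsum_add, ENNReal.tsum_mul_left]
        rfl
    _ ≤ _ := by
        gcongr
        exact tail_mono l f N s

lemma phi_right_le (l : ℕ → ℕ) (f g : E) : phi l g ≤ phi l (f * g : E) := by
  refine ENNReal.tsum_le_tsum fun k => ?_
  rw [term_mul]
  exact le_add_self

lemma phi_left_le (l : ℕ → ℕ) (f g : E) : phi l f ≤ phi l (f * g : E) := by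
  refine ENNReal.tsum_le_tsum fun k => ?_
  rw [term_mul]
  refine le_trans ?_ le_self_add
  unfold term
  have h : l k * exc f (2 ^ k) ≤ l k * exc f (g (2 ^ k)) :=
    Nat.mul_le_mul_left _ (exc_mono f (g.le _))
  gcongr

lemma continuous_mul_top (l : ℕ → ℕ) (hl : Monotone l) (hl1 : ∀ k, 1 ≤ l k) :
    @ContinuousMul E (top l) _ := by
  let _ := top l
  refine ⟨?_⟩
  have hev : ∀ (f₀ g₀ : E) (n : ℕ), ∀ᶠ p : E × E in 𝓝 (f₀, g₀),
      p.1 (p.2 n) = f₀ (g₀ n) ∧ p.2 n = g₀ n := by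
    intro f₀ g₀ n
    rw [nhds_prod_eq]
    have h1 := (eventually_apply_eq l f₀ (g₀ n)).prod_mk (eventually_apply_eq l g₀ n)
    filter_upwards [h1] with p hp
    rw [hp.2, hp.1]
    exact ⟨rfl, rfl⟩
  refine continuous_induced_rng.2 (Continuous.prodMk ?_ ?_)
  · -- pointwise part
    refine continuous_pi fun n => ?_
    rw [continuous_iff_continuousAt]
    rintro ⟨f₀, g₀⟩
    unfold ContinuousAt
    rw [nhds_discrete ℕ, tendsto_pure]
    filter_upwards [hev f₀ g₀ n] with p hp
    exact hp.1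
  · rw [continuous_iff_continuousAt]
    rintro ⟨f₀, g₀⟩
    have hsum : ∀ n, ∀ᶠ p : E × E in 𝓝 (f₀, g₀), ∀ k ∈ Finset.range n,
        term l (p.1 * p.2 : E) k = term l (f₀ * g₀ : E) k := by
      intro n
      rw [Filter.eventually_all_finset]
      intro k _
      filter_upwards [hev f₀ g₀ (2 ^ k)] with p hp
      unfold term exc
      rw [RelHom.mul_apply, RelHom.mul_apply, hp.1]
    unfold ContinuousAt
    by_cases hinf : phi l (f₀ * g₀ : E) = ∞
    · show Tendsto (fun p : E × E => phi l (p.1 * p.2 : E)) (𝓝 (f₀, g₀)) (𝓝 (phi l (f₀ * g₀ : E)))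
      rw [hinf, ENNReal.tendsto_nhds_top_iff_nnreal]
      intro c
      have hc : (c : ℝ≥0∞) < phi l (f₀ * g₀ : E) := by rw [hinf]; exact ENNReal.coe_lt_top
      obtain ⟨n, hn⟩ := (lt_phi_iff l _ _).1 hc
      filter_upwards [hsum n] with p hp
      refine (lt_phi_iff l _ _).2 ⟨n, ?_⟩
      rw [Finset.sum_congr rfl hp]
      exact hn
    · show Tendsto (fun p : E × E => phi l (p.1 * p.2 : E)) (𝓝 (f₀, g₀)) (𝓝 (phi l (f₀ * g₀ : E)))
      have hf₀ : phi l f₀ ≠ ∞ := ne_top_of_le_ne_top hinf (phi_left_le l f₀ g₀)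
      have hg₀ : phi l g₀ ≠ ∞ := ne_top_of_le_ne_top hinf (phi_right_le l f₀ g₀)
      rw [ENNReal.tendsto_nhds hinf]
      intro ε hε
      -- choose s
      obtain ⟨s, hs⟩ : ∃ s : ℕ, 1 + (phi l g₀ + 1) ≤ (2 : ℝ≥0∞) ^ s := by
        obtain ⟨m, hm⟩ := ENNReal.exists_nat_gt (r := 1 + (phi l g₀ + 1)) (by simp [hg₀])
        refine ⟨m, hm.le.trans ?_⟩
        have : m ≤ 2 ^ m := Nat.lt_two_pow_self.le
        calc (m : ℝ≥0∞) ≤ ((2 ^ m : ℕ) : ℝ≥0∞) := by exact_mod_cast this
          _ = _ := by push_cast; rfl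
      set η : ℝ≥0∞ := ε / (4 * 2 ^ s) with hη
      have hηpos : 0 < η := ENNReal.div_pos hε.ne' (by finiteness)
      have hηmul : 4 * 2 ^ s * η = ε :=
        ENNReal.mul_div_cancel (by simp) (by finiteness)
      have hmin : 0 < min η 1 := lt_min hηpos one_pos
      obtain ⟨N, hN1, hN2⟩ : ∃ N, tail l f₀ N ≤ η ∧ tail l g₀ N ≤ η := by
        have h1 := (tendsto_tail l f₀ hf₀).eventually (ge_mem_nhds hηpos)
        have h2 := (tendsto_tail l g₀ hg₀).eventually (ge_mem_nhds hηpos)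
        exact (h1.and h2).exists
      -- neighborhoods in which phi is close
      have hphi : ∀ h₀ : E, phi l h₀ ≠ ∞ → ∀ᶠ h : E in 𝓝 h₀, phi l h ≤ phi l h₀ + min η 1 := by
        intro h₀ hh₀
        have := (continuous_phi l).tendsto h₀
        exact this.eventually (ge_mem_nhds (ENNReal.lt_add_right hh₀ hmin.ne'))
      have htermev : ∀ h₀ : E, ∀ᶠ h : E in 𝓝 h₀, ∀ k ∈ Finset.range N, term l h k = term l h₀ k := by
        intro h₀
        rw [Filter.eventually_all_finset]
        intro k _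
        filter_upwards [eventually_apply_eq l h₀ (2 ^ k)] with h hh
        unfold term exc
        rw [hh]
      have htail : ∀ h₀ : E, phi l h₀ ≠ ∞ → tail l h₀ N ≤ η →
          ∀ᶠ h : E in 𝓝 h₀, tail l h N ≤ η + η ∧ phi l h ≤ phi l h₀ + 1 := by
        intro h₀ hh₀ ht
        filter_upwards [hphi h₀ hh₀, htermev h₀] with h h1 h2
        refine ⟨?_, h1.trans (by gcongr; exact min_le_right _ _)⟩
        rw [phi_eq l h N, phi_eq l h₀ N, Finset.sum_congr rfl h2, add_assoc] at h1
        have hfin : ∑ k ∈ Finset.range N, term l h₀ k ≠ ∞ :=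
          ENNReal.sum_ne_top.2 fun k _ => term_ne_top l h₀ k
        have h3 := (ENNReal.add_le_add_iff_left hfin).1 h1
        exact h3.trans (add_le_add ht (min_le_left _ _))
      have hF := hsum N
      rw [nhds_prod_eq] at hF ⊢
      have h4η : 2 ^ s * (η + η) + (η + η) ≤ ε := by
        rw [← hηmul]
        have h1 : (1 : ℝ≥0∞) ≤ 2 ^ s := one_le_pow₀ (by norm_num)
        calc 2 ^ s * (η + η) + (η + η) = 2 ^ s * (η + η) + 1 * (η + η) := by rw [one_mul]
          _ ≤ 2 ^ s * (η + η) + 2 ^ s * (η + η) := by gcongr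
          _ = _ := by ring
      filter_upwards [hF, (htail f₀ hf₀ hN1).prod_mk (htail g₀ hg₀ hN2)] with p hp1 hp2
      have hs0 : 1 + phi l g₀ ≤ (2 : ℝ≥0∞) ^ s := by
        refine le_trans ?_ hs
        gcongr
        exact le_self_add
      have hs1 : 1 + phi l p.2 ≤ (2 : ℝ≥0∞) ^ s := by
        refine le_trans ?_ hs
        gcongr
        exact hp2.2.2
      constructor
      · rw [tsub_le_iff_right]
        have h1 := tail_mul_le l hl hl1 f₀ g₀ s N hs0
        rw [phi_eq l (f₀ * g₀ : E) N, phi_eq l (p.1 * p.2 : E) N, Finset.sum_congr rfl hp1, add_assoc]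
        refine add_le_add le_rfl (le_trans ?_ le_add_self)
        refine (h1.trans (add_le_add (mul_le_mul_right ?_ _) ?_)).trans h4η
        · exact hN1.trans le_self_add
        · exact hN2.trans le_self_add
      · have h1 := tail_mul_le l hl hl1 p.1 p.2 s N hs1
        rw [phi_eq l (f₀ * g₀ : E) N, phi_eq l (p.1 * p.2 : E) N, Finset.sum_congr rfl hp1, add_assoc]
        refine add_le_add le_rfl (le_trans ?_ le_add_self)
        exact (h1.trans (add_le_add (mul_le_mul_right hp2.1.1 _) hp2.2.1)).trans h4η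

lemma isOpen_finite (l : ℕ → ℕ) : @IsOpen E (top l) {f : E | phi l f < ∞} := by
  let _ := top l
  exact isOpen_Iio.preimage (continuous_phi l)

lemma tsum_ite_ge (a : ℕ → ℝ≥0∞) (N : ℕ) :
    ∑' k, (if N ≤ k then a k else 0) = ∑' k, a (k + N) := by
  let F : ℕ → ℝ≥0∞ := fun k => if N ≤ k then a k else 0
  have h : ∑ k ∈ Finset.range N, F k + ∑' k, F (k + N) = ∑' k, F k :=
    ENNReal.summable.sum_add_tsum_nat_add'
  show ∑' k, F k = _
  rw [← h, Finset.sum_eq_zero, zero_add]
  · refine tsum_congr fun k => ?_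
    exact if_pos (Nat.le_add_left _ _)
  · intro k hk
    rw [Finset.mem_range] at hk
    exact if_neg (by omega)

/-- Every `f` with finite unweighted sum has a finite sum for some unbounded weight. -/
lemma exists_weight (f : E) (hf : phi (fun _ => 1) f < ∞) :
    ∃ l : ℕ → ℕ, Monotone l ∧ (∀ k, 1 ≤ l k) ∧ Tendsto l atTop atTop ∧ phi l f < ∞ := by
  have htend := tendsto_tail (fun _ => 1) f hf.ne
  have hex : ∀ i : ℕ, ∃ N : ℕ, i ≤ N ∧ tail (fun _ => 1) f N ≤ (2 : ℝ≥0∞)⁻¹ ^ i := by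
    intro i
    have hpos : (0 : ℝ≥0∞) < (2 : ℝ≥0∞)⁻¹ ^ i := by
      refine pos_iff_ne_zero.2 (pow_ne_zero _ ?_)
      simp
    have h1 := htend.eventually (ge_mem_nhds hpos)
    obtain ⟨N, hN1, hN2⟩ := (h1.and (eventually_ge_atTop i)).exists
    exact ⟨N, hN2, hN1⟩
  choose N hN1 hN2 using hex
  let c : ℕ → ℕ := fun k => ((Finset.range (k + 1)).filter (fun i => N i ≤ k)).card
  refine ⟨fun k => 1 + c k, ?_, fun k => Nat.le_add_right 1 _, ?_, ?_⟩
  · intro a b hab
    refine Nat.add_le_add_left (Finset.card_le_card ?_) 1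
    intro i hi
    simp only [Finset.mem_filter, Finset.mem_range] at hi ⊢
    omega
  · refine tendsto_atTop.2 fun b => ?_
    have hev : ∀ᶠ k in atTop, ∀ i ∈ Finset.range b, N i ≤ k := by
      rw [Filter.eventually_all_finset]
      exact fun i _ => eventually_ge_atTop (N i)
    filter_upwards [hev, eventually_ge_atTop b] with k hk hbk
    have : Finset.range b ⊆ (Finset.range (k + 1)).filter (fun i => N i ≤ k) := by
      intro i hi
      have := hk i hi
      simp only [Finset.mem_filter, Finset.mem_range] at hi ⊢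
      exact ⟨by omega, this⟩
    have h2 := Finset.card_le_card this
    rw [Finset.card_range] at h2
    show b ≤ 1 + c k
    exact h2.trans (Nat.le_add_left _ _)
  · have hc : ∀ k, ((c k : ℕ) : ℝ≥0∞) = ∑' i, (if N i ≤ k then 1 else 0 : ℝ≥0∞) := by
      intro k
      rw [tsum_eq_sum (s := Finset.range (k + 1))]
      · simp only [c, Finset.card_filter]
        push_cast
        rfl
      · intro i hi
        rw [Finset.mem_range] at hi
        have := hN1 i
        rw [if_neg (by omega)]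
    have hterm : ∀ k, term (fun k => 1 + c k) f k =
        term (fun _ => 1) f k + ∑' i, (if N i ≤ k then term (fun _ => 1) f k else 0) := by
      intro k
      have h1 : ∑' i, (if N i ≤ k then term (fun _ => 1) f k else 0) =
          ((c k : ℕ) : ℝ≥0∞) * term (fun _ => 1) f k := by
        rw [hc, ← ENNReal.tsum_mul_right]
        refine tsum_congr fun i => ?_
        split_ifs <;> simp
      rw [h1]
      unfold term
      push_cast
      ring
    have htail : ∀ i, ∑' k, (if N i ≤ k then term (fun _ => 1) f k else 0) =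
        tail (fun _ => 1) f (N i) := by
      intro i
      exact tsum_ite_ge _ (N i)
    calc phi (fun k => 1 + c k) f
        = ∑' k, (term (fun _ => 1) f k + ∑' i, (if N i ≤ k then term (fun _ => 1) f k else 0)) :=
          tsum_congr hterm
      _ = phi (fun _ => 1) f + ∑' i, tail (fun _ => 1) f (N i) := by
          rw [ENNReal.tsum_add, ENNReal.tsum_comm]
          congr 1
          exact tsum_congr htail
      _ ≤ phi (fun _ => 1) f + ∑' i, (2 : ℝ≥0∞)⁻¹ ^ i := by
          gcongr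
          exact hN2 _
      _ < ∞ := by
          rw [ENNReal.tsum_geometric]
          refine ENNReal.add_lt_top.2 ⟨hf, ?_⟩
          simp

/-- Diagonal argument: countably many unbounded weights do not exhaust the unweighted class. -/
lemma exists_diagonal (l : ℕ → ℕ → ℕ) (hl : ∀ j, Tendsto (l j) atTop atTop) :
    ∃ f : E, phi (fun _ => 1) f < ∞ ∧ ∀ j, phi (l j) f = ∞ := by
  have hex : ∀ i m : ℕ, ∃ k : ℕ, m ≤ k ∧ ∀ j ∈ Finset.range (i + 1), 2 ^ i ≤ l j k := by
    intro i m
    have hev : ∀ᶠ k in atTop, ∀ j ∈ Finset.range (i + 1), 2 ^ i ≤ l j k := by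
      rw [Filter.eventually_all_finset]
      exact fun j _ => (hl j).eventually (eventually_ge_atTop _)
    obtain ⟨k, h1, h2⟩ := (hev.and (eventually_ge_atTop m)).exists
    exact ⟨k, h2, h1⟩
  choose K hK1 hK2 using hex
  -- k i is a strictly increasing sequence
  obtain ⟨k, hk0, hksucc⟩ : ∃ k : ℕ → ℕ, k 0 = K 0 0 ∧ ∀ i, k (i + 1) = K (i + 1) (k i + 1) :=
    ⟨fun i => Nat.rec (K 0 0) (fun i m => K (i + 1) (m + 1)) i, rfl, fun _ => rfl⟩
  have hkmono : StrictMono k := by
    refine strictMono_nat_of_lt_succ fun i => ?_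
    rw [hksucc]
    have := hK1 (i + 1) (k i + 1)
    omega
  have hkl : ∀ i, ∀ j ∈ Finset.range (i + 1), 2 ^ i ≤ l j (k i) := by
    intro i
    cases i with
    | zero => rw [hk0]; exact hK2 0 0
    | succ i => rw [hksucc]; exact hK2 (i + 1) (k i + 1)
  have hki : ∀ i, i ≤ k i := fun i => hkmono.le_apply
  -- excess function
  let e : ℕ → ℕ := fun n => ∑ i ∈ Finset.range (n + 1), if 2 ^ (k i) ≤ n then 2 ^ (k i - i) else 0
  have hemono : Monotone e := by
    intro a b hab
    calc e a ≤ ∑ i ∈ Finset.range (a + 1), (if 2 ^ (k i) ≤ b then 2 ^ (k i - i) else 0) := by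
          refine Finset.sum_le_sum fun i _ => ?_
          split_ifs <;> first | omega | simp
      _ ≤ e b := by
          refine Finset.sum_le_sum_of_subset ?_
          exact Finset.range_mono (by omega)
  let f : E := ⟨fun n => n + e n, fun {a b} h => by
    have := hemono h.le
    show a + e a < b + e b
    omega⟩
  have hfe : ∀ n, exc f n = e n := by
    intro n
    show n + e n - n = e n
    omega
  have hee : ∀ n, ((e n : ℕ) : ℝ≥0∞) = ∑' i, (if 2 ^ (k i) ≤ n then (2 : ℝ≥0∞) ^ (k i - i) else 0) := by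
    intro n
    rw [tsum_eq_sum (s := Finset.range (n + 1))]
    · simp only [e]
      push_cast
      rfl
    · intro i hi
      rw [Finset.mem_range] at hi
      rw [if_neg]
      have h1 := hki i
      have h2 : k i < 2 ^ k i := Nat.lt_two_pow_self
      omega
  refine ⟨f, ?_, ?_⟩
  · -- finite unweighted sum
    have hterm : ∀ m, term (fun _ => 1) f m =
        ∑' i, (if k i ≤ m then (2 : ℝ≥0∞)⁻¹ ^ i * (2 : ℝ≥0∞)⁻¹ ^ (m - k i) else 0) := by
      intro m
      unfold term
      rw [hfe, one_mul, hee, ← ENNReal.tsum_mul_right]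
      refine tsum_congr fun i => ?_
      by_cases h : k i ≤ m
      · have h' : 2 ^ k i ≤ 2 ^ m := Nat.pow_le_pow_right (by norm_num) h
        rw [if_pos h, if_pos h']
        have h1 := hki i
        have h2 : (2 : ℝ≥0∞) ^ m = 2 ^ (k i - i) * (2 ^ i * 2 ^ (m - k i)) := by
          rw [← pow_add, ← pow_add]
          congr 1
          omega
        rw [h2, ENNReal.mul_inv (by left; simp) (by left; simp), ← mul_assoc,
          ENNReal.mul_inv_cancel (by simp) (by simp), one_mul,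
          ENNReal.mul_inv (by left; simp) (by left; simp), ENNReal.inv_pow, ENNReal.inv_pow]
      · rw [if_neg h, if_neg, zero_mul]
        intro h3
        exact h ((Nat.pow_le_pow_iff_right (by norm_num)).1 h3)
    have hsum : ∀ i, ∑' m, (if k i ≤ m then (2 : ℝ≥0∞)⁻¹ ^ i * (2 : ℝ≥0∞)⁻¹ ^ (m - k i) else 0) =
        (2 : ℝ≥0∞)⁻¹ ^ i * 2 := by
      intro i
      rw [tsum_ite_ge (fun m => (2 : ℝ≥0∞)⁻¹ ^ i * (2 : ℝ≥0∞)⁻¹ ^ (m - k i)) (k i)]
      simp only [Nat.add_sub_cancel]
      rw [ENNReal.tsum_mul_left, ENNReal.tsum_geometric]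
      congr 1
      simp
    calc phi (fun _ => 1) f = ∑' m, ∑' i, (if k i ≤ m then
          (2 : ℝ≥0∞)⁻¹ ^ i * (2 : ℝ≥0∞)⁻¹ ^ (m - k i) else 0) := tsum_congr hterm
      _ = ∑' i, (2 : ℝ≥0∞)⁻¹ ^ i * 2 := by
          rw [ENNReal.tsum_comm]
          exact tsum_congr hsum
      _ < ∞ := by
          rw [ENNReal.tsum_mul_right, ENNReal.tsum_geometric]
          refine ENNReal.mul_lt_top ?_ (by simp)
          simp
  · intro j
    -- infinitely many terms are at least one
    have hge : ∀ i, j ≤ i → 1 ≤ term (l j) f (k i) := by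
      intro i hji
      have h1 : 2 ^ (k i - i) ≤ e (2 ^ k i) := by
        have hi : i ∈ Finset.range (2 ^ k i + 1) := by
          rw [Finset.mem_range]
          have h1 := hki i
          have h2 : k i < 2 ^ k i := Nat.lt_two_pow_self
          omega
        calc 2 ^ (k i - i) = (if 2 ^ (k i) ≤ 2 ^ k i then 2 ^ (k i - i) else 0) := by simp
          _ ≤ _ := Finset.single_le_sum (f := fun i' => if 2 ^ (k i') ≤ 2 ^ k i then 2 ^ (k i' - i') else 0)
              (fun _ _ => Nat.zero_le _) hi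
      have h2 : 2 ^ i ≤ l j (k i) := hkl i j (by rw [Finset.mem_range]; omega)
      have h3 : 2 ^ k i ≤ l j (k i) * exc f (2 ^ k i) := by
        rw [hfe]
        calc 2 ^ k i = 2 ^ i * 2 ^ (k i - i) := by
              rw [← pow_add]
              congr 1
              have := hki i
              omega
          _ ≤ _ := Nat.mul_le_mul h2 h1
      unfold term
      calc (1 : ℝ≥0∞) = ((2 ^ k i : ℕ) : ℝ≥0∞) * ((2 : ℝ≥0∞) ^ k i)⁻¹ := by
            push_cast
            rw [ENNReal.mul_inv_cancel (by simp) (by simp)]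
        _ ≤ _ := by gcongr
    have hinj : Function.Injective (fun i => k (i + j)) :=
      hkmono.injective.comp (add_left_injective j)
    have h1 : ∑' i : ℕ, (1 : ℝ≥0∞) ≤ phi (l j) f := by
      calc ∑' i : ℕ, (1 : ℝ≥0∞) ≤ ∑' i, term (l j) f (k (i + j)) :=
            ENNReal.tsum_le_tsum fun i => hge (i + j) (Nat.le_add_left _ _)
        _ ≤ _ := ENNReal.tsum_comp_le_tsum_of_injective hinj _
    rw [ENNReal.tsum_const_eq_top_of_ne_zero one_ne_zero] at h1
    exact top_le_iff.1 h1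

/-- No second countable topology on the endomorphism monoid refines all Polish semigroup
topologies. -/
theorem not_secondCountable (T : TopologicalSpace E) (hT : @SecondCountableTopology E T)
    (h : ∀ l : ℕ → ℕ, Monotone l → (∀ k, 1 ≤ l k) → ∀ U : Set E, IsOpen[top l] U → IsOpen[T] U) :
    False := by
  let ι : Type := {l : ℕ → ℕ // Monotone l ∧ (∀ k, 1 ≤ l k) ∧ Tendsto l atTop atTop}
  have hopen : ∀ i : ι, IsOpen[T] {f : E | phi i.1 f < ∞} :=
    fun i => h i.1 i.2.1 i.2.2.1 _ (isOpen_finite i.1)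
  obtain ⟨J, hJ, hJU⟩ := TopologicalSpace.isOpen_iUnion_countable _ hopen
  have hcover : ∀ f : E, phi (fun _ => 1) f < ∞ → ∃ i ∈ J, phi i.1 f < ∞ := by
    intro f hf
    obtain ⟨l, h1, h2, h3, h4⟩ := exists_weight f hf
    have : f ∈ ⋃ i ∈ J, {f : E | phi i.1 f < ∞} := by
      rw [hJU]
      exact mem_iUnion.2 ⟨⟨l, h1, h2, h3⟩, h4⟩
    simpa using this
  have hne : J.Nonempty := by
    have h1 : phi (fun _ => 1) (1 : E) < ∞ := by
      have : phi (fun _ => 1) (1 : E) = 0 := by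
        unfold phi term exc
        simp
      rw [this]
      exact ENNReal.zero_lt_top
    obtain ⟨i, hi, -⟩ := hcover 1 h1
    exact ⟨i, hi⟩
  obtain ⟨L, hL⟩ := hJ.exists_eq_range hne
  obtain ⟨f, hf1, hf2⟩ := exists_diagonal (fun j => (L j).1) (fun j => (L j).2.2.2)
  obtain ⟨i, hi, hi2⟩ := hcover f hf1
  rw [hL] at hi
  obtain ⟨j, rfl⟩ := hi
  exact hi2.ne (hf2 j)

/-- The monoid of order-endomorphisms of `(ℕ, <)` has no finest Polish semigroup topology. -/
theorem result :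
    ¬ ∃ T : TopologicalSpace (((· < ·) : ℕ → ℕ → Prop) →r ((· < ·) : ℕ → ℕ → Prop)),
        (@PolishSpace _ T ∧ @ContinuousMul _ T _) ∧
        ∀ T' : TopologicalSpace (((· < ·) : ℕ → ℕ → Prop) →r ((· < ·) : ℕ → ℕ → Prop)),
          (@PolishSpace _ T' ∧ @ContinuousMul _ T' _) →
          ∀ U : Set (((· < ·) : ℕ → ℕ → Prop) →r ((· < ·) : ℕ → ℕ → Prop)),
            IsOpen[T'] U → IsOpen[T] U := by
  rintro ⟨T, ⟨hT, -⟩, hfin⟩
  exact not_secondCountable T hT.toSecondCountableTopology fun l hl hl1 =>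
    hfin (top l) ⟨polish_top l, continuous_mul_top l hl hl1⟩

end Pool.Agent.Results.MP_0c7c8f_al.NoFinest
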